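import Pool.Agent.H234.ST.Final

/-!
# Length saturation for optimal connected stiffeners: a counterexample

The plane is `ℂ` with its Euclidean norm and Lebesgue measure; the operator norm of
`fderiv ℝ u z : ℂ →L[ℝ] ℝ` is the Euclidean norm of the gradient; `μH[1]` is the one-dimensional
Hausdorff measure.

* `IsTest Ω u` : `u ∈ C_c^∞(Ω)`;
* `energy Ω m μ u = ∫_Ω |∇u|² dx + m ∫ |∇u|² dμ`;
* `lam Ω m μ` : the first eigenvalue `λ₁(μ)`, the infimum of `energy Ω m μ u / ∫_Ω u²`;
* `Adm Ω L μ` : the class `𝒜ᶜ_L`: `μ` is carried by the closure of `Ω`, has mass at most `L`,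
  connected support (`μ = 0`, with empty support, is admitted) and `μ ≥ H¹` on its support;
* `IsMaximizer Ω m L μ` : `μ` maximises `λ₁` in this class.

The domain is the rectangle `rect = (0,3) × (0,1)`. For every stiffness `m ≥ m₀` there is a length
budget `L ≤ 1` for which the problem has a maximiser and EVERY maximiser is `H¹` restricted to a
connected set of length exactly `L`.
-/

set_option autoImplicit false

open MeasureTheory Set Metric Filter Topology
open scoped ContDiff ENNReal

namespace Pool.Agent.Results.MP_2681e5_an.SaturatedStiffeners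

open Pool.Agent.H234.ST

/-- **Length saturation.** Let `Ω = (0,3) × (0,1)`. There is `m₀` such that for every stiffness
`m ≥ m₀` there is a length budget `L ∈ (0,1]` such that (P) has a maximiser and the support `S` of
every maximiser `μ` satisfies `H¹(S) = L` (and `μ` is `H¹` restricted to `S`). -/
theorem result :
    ∃ m₀ : ℝ, 0 < m₀ ∧ ∀ m : ℝ, m₀ ≤ m → ∃ L : ℝ, 0 < L ∧ L ≤ 1 ∧
      (∃ μ : Measure ℂ, IsMaximizer rect m L μ) ∧
      ∀ μ : Measure ℂ, IsMaximizer rect m L μ → μ.support.Nonempty ∧
        μH[1] μ.support = ENNReal.ofReal L ∧ μ = (μH[1] : Measure ℂ).restrict μ.support :=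
  saturation

end Pool.Agent.Results.MP_2681e5_an.SaturatedStiffeners
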